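import Pool.Agent.Lib.MP_44acff_gt.EK.Main

namespace Pool.Agent.Results.MP_44acff_gt.EveryK

open Pool.Agent.Lib.MP_44acff_gt.EK Set

/-- For every curvature `K` in `(-1, 0)` there is a complete planar surface of constant curvature
`K` for which existence or uniqueness fails: either it is a bounded plane domain with finitely many
complementary components, none of them a point, that no circle domain realises, or it is realised
by two circle domains that are not related by a Moebius transformation, even up to a reflection. -/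
theorem result (K : ℝ) (hK : K ∈ Ioo (-1 : ℝ) 0) : ∃ (Ω : Set ℂ) (lam : ℂ → ℝ),
    CompleteSurface K Ω lam ∧
      ((Bornology.IsBounded Ω ∧ (connectedComponentIn Ωᶜ '' Ωᶜ).Finite ∧
        (∀ z ∈ Ωᶜ, (connectedComponentIn Ωᶜ z).Nontrivial) ∧
        ∀ Γ : Set (OnePoint ℂ), CircleDomain Γ → ¬ Realises Ω lam Γ) ∨
      ∃ Γ₁ Γ₂ : Set (OnePoint ℂ), CircleDomain Γ₁ ∧ CircleDomain Γ₂ ∧ Realises Ω lam Γ₁ ∧
        Realises Ω lam Γ₂ ∧ ¬ MobEquiv Γ₁ Γ₂) :=
  main K hK.2

end Pool.Agent.Results.MP_44acff_gt.EveryK
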