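import Pool.Agent.Lib.MP_44acff_gt.H70Main

namespace Pool.Agent.Results.MP_44acff_gt.NonUnique

open Pool.Agent.Lib.MP_44acff_gt.NU Set

/-- For every curvature `K < 0` close to `0` there is a complete planar surface of constant
curvature `K` that is isometric to the boundaries of the convex domains of two circle domains
that are not related by a Moebius transformation, even up to a reflection. Only points are
deleted from the sphere: the complements of the two domains are totally disconnected. -/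
theorem result : ∃ K₀ ∈ Ioo (-1 : ℝ) 0, ∀ K ∈ Ioo K₀ 0, ∃ (Ω : Set ℂ) (lam : ℂ → ℝ)
    (Γ₁ Γ₂ : Set (OnePoint ℂ)) (C₁ C₂ : Set (ℂ × ℝ)), CompleteSurface K Ω lam ∧
      (IsCircleDomain Γ₁ ∧ IsTotallyDisconnected Γ₁ᶜ ∧ frontier Γ₁ = Γ₁ᶜ) ∧
      (IsCircleDomain Γ₂ ∧ IsTotallyDisconnected Γ₂ᶜ ∧ frontier Γ₂ = Γ₂ᶜ) ∧
      IsDomainFor Γ₁ C₁ ∧ IsDomainFor Γ₂ C₂ ∧
      IsometricTo Ω lam C₁ ∧ IsometricTo Ω lam C₂ ∧ ¬ MoebiusRelated Γ₁ Γ₂ :=
  main

end Pool.Agent.Results.MP_44acff_gt.NonUnique
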